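import Mathlib
import Pool.Agent.Q28.Anosov

/-!
Anosov matrices and Nies–Semukhin presentations of `ℤ²`: the Anosov matrix with rows `(2, 1)` and
`(1, 1)` is recognizable in none of the presentations, and an Anosov matrix recognizable with
respect to `ψ_{p,q}` must be a polynomial in the companion matrix of `x² + p x - q`.
-/

namespace Pool.Agent.Results.MP_334179_al.CatMapNotRecognizable

open Polynomial

/-! ### Definitions -/

/-- The convolution `u ⊗ v` of two words: its `k`-th letter is the pair of the `k`-th letters, with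
`none` as padding symbol, and its length is `max |u| |v|`. -/
def conv {α : Type} (u v : List α) : List (Option α × Option α) :=
  (List.range (max u.length v.length)).map fun k => (u[k]?, v[k]?)

/-- A binary relation on words is FA-recognizable if the language of convolutions of its pairs is
regular. -/
def FARecognizable {α : Type} (R : List α → List α → Prop) : Prop :=
  Language.IsRegular ({x | ∃ u v, R u v ∧ conv u v = x} : Language (Option α × Option α))

/-- The index set `𝒫`. -/
def P : Set (ℤ × ℤ) :=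
  {pq | 1 + |pq.1| < |pq.2| ∧ IsCoprime pq.1 pq.2 ∧
    (pq.1 ^ 2 + 4 * pq.2 = -4 ∨ pq.1 ^ 2 + 4 * pq.2 = -3 ∨ pq.1 ^ 2 + 4 * pq.2 = 1 ∨
      pq.1 ^ 2 + 4 * pq.2 = 4 ∨ (0 < pq.1 ^ 2 + 4 * pq.2 ∧ ¬ IsSquare (pq.1 ^ 2 + 4 * pq.2)))}

/-- `t(x) = x² + p x - q`. -/
noncomputable def t (p q : ℤ) : ℤ[X] := X ^ 2 + C p * X - C q

/-- The digits `Σ_q = {-(|q|-1), …, |q|-1}` with their natural order. -/
abbrev Digit (q : ℤ) : Type := {a : ℤ // |a| ≤ |q| - 1}

/-- The polynomial `∑ a_i x^i` encoded by the string `a_0 a_1 ⋯`. -/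
noncomputable def toPoly {q : ℤ} (w : List (Digit q)) : ℤ[X] :=
  ∑ i : Fin w.length, C ((w[i] : Digit q) : ℤ) * X ^ (i : ℕ)

/-- Two strings are equivalent if `t` divides the difference of their polynomials. -/
def Equivalent (p q : ℤ) (u v : List (Digit q)) : Prop := t p q ∣ toPoly u - toPoly v

/-- `Dom_{p,q}`: the strings with no equivalent string before them in the length-lexicographic
order. -/
def Dom (p q : ℤ) : Set (List (Digit q)) :=
  {w | ∀ u, List.Shortlex (· < ·) u w → ¬ Equivalent p q u w}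

/-- `ψ_{p,q}(w) = (c_0, c_1)` where `c_0 + c_1 x` is the remainder of the polynomial of `w`
modulo `t`. -/
noncomputable def psi (p q : ℤ) (w : List (Digit q)) : Fin 2 → ℤ :=
  ![(toPoly w %ₘ t p q).coeff 0, (toPoly w %ₘ t p q).coeff 1]

/-- The matrix `A` is FA-recognizable with respect to `ψ_{p,q}`. -/
def MatrixRecognizable (p q : ℤ) (A : Matrix (Fin 2) (Fin 2) ℤ) : Prop :=
  FARecognizable fun u v : List (Digit q) =>
    u ∈ Dom p q ∧ v ∈ Dom p q ∧ psi p q v = A.mulVec (psi p q u)

/-- A matrix in `SL(2, ℤ)` is Anosov if `|tr A| > 2`. -/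
def Anosov (A : Matrix.SpecialLinearGroup (Fin 2) ℤ) : Prop :=
  2 < |(A : Matrix (Fin 2) (Fin 2) ℤ).trace|

/-! ### The value of a polynomial in `ℤ[x]/(t)` -/

open Q28.Anosov in
theorem t_monic (p q : ℤ) : (t p q).Monic := by
  unfold t
  monicity!

theorem t_natDegree (p q : ℤ) : (t p q).natDegree = 2 := by
  unfold t
  compute_degree!

/-- the coordinates of the class of `f` -/
noncomputable def val (p q : ℤ) (f : ℤ[X]) : Fin 2 → ℤ :=
  ![(f %ₘ t p q).coeff 0, (f %ₘ t p q).coeff 1]

theorem rem_eq (p q : ℤ) (f : ℤ[X]) :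
    f %ₘ t p q = C (val p q f 0) + C (val p q f 1) * X := by
  have hdeg : (f %ₘ t p q).natDegree < 2 := by
    have h := natDegree_modByMonic_lt f (t_monic p q) (by
      intro h
      have := t_natDegree p q
      rw [h] at this
      simp at this)
    rwa [t_natDegree] at h
  ext n
  match n with
  | 0 => simp [val, -eq_intCast]
  | 1 => simp [val, -eq_intCast, coeff_C]
  | n + 2 =>
    rw [coeff_eq_zero_of_natDegree_lt (by omega)]
    simp [-eq_intCast]

theorem val_add (p q : ℤ) (f g : ℤ[X]) : val p q (f + g) = val p q f + val p q g := by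
  funext i
  fin_cases i <;> simp [val, add_modByMonic]

theorem val_sub (p q : ℤ) (f g : ℤ[X]) : val p q (f - g) = val p q f - val p q g := by
  funext i
  fin_cases i <;> simp [val, sub_modByMonic]

theorem val_C (p q : ℤ) (c : ℤ) : val p q (C c) = ![c, 0] := by
  have h : (C c : ℤ[X]) %ₘ t p q = C c := by
    rw [modByMonic_eq_self_iff (t_monic p q)]
    refine lt_of_le_of_lt degree_C_le ?_
    rw [degree_eq_natDegree (t_monic p q).ne_zero, t_natDegree]
    norm_num
  funext i
  fin_cases i <;> simp [val, h, -eq_intCast, coeff_C]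

theorem val_mul_t (p q : ℤ) (f : ℤ[X]) : val p q (t p q * f) = 0 := by
  have h : (t p q * f) %ₘ t p q = 0 :=
    (modByMonic_eq_zero_iff_dvd (t_monic p q)).2 (dvd_mul_right _ _)
  funext i
  fin_cases i <;> simp [val, h]

theorem val_linear (p q a b : ℤ) : val p q (C a + C b * X) = ![a, b] := by
  have h : (C a + C b * X : ℤ[X]) %ₘ t p q = C a + C b * X := by
    rw [modByMonic_eq_self_iff (t_monic p q)]
    refine lt_of_le_of_lt (degree_add_le _ _) ?_
    rw [degree_eq_natDegree (t_monic p q).ne_zero, t_natDegree]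
    refine max_lt (lt_of_le_of_lt degree_C_le (by norm_num))
      (lt_of_le_of_lt (degree_C_mul_X_le _) ?_)
    norm_num
  funext i
  fin_cases i <;> simp [val, h, -eq_intCast, coeff_C]

open Q28.Anosov in
/-- multiplication by `x` acts as the matrix `M` -/
theorem val_X_mul (p q : ℤ) (f : ℤ[X]) : val p q (X * f) = (M p q).mulVec (val p q f) := by
  have h1 : f = (f %ₘ t p q) + t p q * (f /ₘ t p q) := (modByMonic_add_div f (t p q)).symm
  obtain ⟨a, ha⟩ : ∃ a, a = val p q f 0 := ⟨_, rfl⟩
  obtain ⟨b, hb⟩ : ∃ b, b = val p q f 1 := ⟨_, rfl⟩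
  have h2 : X * f = (C (q * b) + C (a - p * b) * X) + t p q * (C b + X * (f /ₘ t p q)) := by
    conv_lhs => rw [h1, rem_eq, ← ha, ← hb]
    simp only [t, C_mul, C_sub]
    ring
  rw [h2, val_add, val_linear, val_mul_t, add_zero]
  funext i
  fin_cases i
  · simp [M, Matrix.mulVec, dotProduct, Fin.sum_univ_two, ← hb]
  · simp [M, Matrix.mulVec, dotProduct, Fin.sum_univ_two, ← ha, ← hb]
    ring

theorem toPoly_nil {q : ℤ} : toPoly ([] : List (Digit q)) = 0 := by simp [toPoly]

theorem toPoly_cons {q : ℤ} (a : Digit q) (w : List (Digit q)) :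
    toPoly (a :: w) = C (a : ℤ) + X * toPoly w := by
  unfold toPoly
  rw [Finset.mul_sum]
  have : (∑ i : Fin (a :: w).length, C (((a :: w)[i] : Digit q) : ℤ) * X ^ (i : ℕ)) =
      ∑ i : Fin (w.length + 1), C (((a :: w)[i.val]'(i.2) : Digit q) : ℤ) * X ^ (i : ℕ) := rfl
  rw [this, Fin.sum_univ_succ]
  congr 1
  · simp
  · apply Finset.sum_congr rfl
    intro i _
    simp only [Fin.val_succ, List.getElem_cons_succ, pow_succ]
    show _ = X * (C ((w[i.val] : Digit q) : ℤ) * X ^ (i : ℕ))
    ring

theorem psi_eq (p q : ℤ) (w : List (Digit q)) : psi p q w = val p q (toPoly w) := rfl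

open Q28.Anosov in
theorem psi_append (p q : ℤ) (u v : List (Digit q)) :
    psi p q (u ++ v) = psi p q u + (M p q ^ u.length).mulVec (psi p q v) := by
  induction u with
  | nil =>
    rw [List.nil_append, List.length_nil, pow_zero, Matrix.one_mulVec, psi_eq, psi_eq, toPoly_nil]
    have : val p q 0 = 0 := by
      have := val_C p q 0
      rw [C_0] at this
      rw [this]
      funext i; fin_cases i <;> rfl
    rw [this, zero_add]
  | cons a u ih =>
    rw [List.cons_append, psi_eq, toPoly_cons, val_add, val_X_mul, ← psi_eq, ih, psi_eq p q (a :: u),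
      toPoly_cons, val_add, val_X_mul, ← psi_eq, Matrix.mulVec_add, List.length_cons, pow_succ',
      ← Matrix.mulVec_mulVec]
    abel

/-- equality of `ψ` is equivalence -/
theorem equivalent_iff (p q : ℤ) (u v : List (Digit q)) :
    Equivalent p q u v ↔ psi p q u = psi p q v := by
  unfold Equivalent
  rw [← modByMonic_eq_zero_iff_dvd (t_monic p q), rem_eq, val_sub, ← psi_eq, ← psi_eq]
  constructor
  · intro h
    have h0 := congrArg (fun f => coeff f 0) h
    have h1 := congrArg (fun f => coeff f 1) h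
    simp [-eq_intCast, coeff_C] at h0 h1
    funext i
    fin_cases i
    · exact sub_eq_zero.1 h0
    · exact sub_eq_zero.1 h1
  · intro h
    rw [h]
    simp

/-! ### `ψ` is onto -/

theorem trunc (c q : ℤ) (hq : q ≠ 0) :
    ∃ m a : ℤ, c = a + q * m ∧ |a| ≤ |q| - 1 ∧ |q| * |m| ≤ |c| := by
  refine ⟨c.tdiv q, c.tmod q, (Int.tmod_add_mul_tdiv c q).symm, ?_, ?_⟩
  · have h1 : (c.tmod q).natAbs = c.natAbs % q.natAbs := Int.natAbs_tmod c q
    have h2 : c.natAbs % q.natAbs < q.natAbs := Nat.mod_lt _ (Int.natAbs_pos.2 hq)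
    rw [Int.abs_eq_natAbs, Int.abs_eq_natAbs, h1]
    omega
  · have h1 : (c.tdiv q).natAbs = c.natAbs / q.natAbs := Int.natAbs_tdiv c q
    have h2 : q.natAbs * (c.natAbs / q.natAbs) ≤ c.natAbs := Nat.mul_div_le _ _
    rw [Int.abs_eq_natAbs, Int.abs_eq_natAbs, Int.abs_eq_natAbs, h1]
    exact_mod_cast h2

open Q28.Anosov in
theorem psi_cons (p q : ℤ) (a : Digit q) (w : List (Digit q)) :
    psi p q (a :: w) = ![(a : ℤ) + q * psi p q w 1, psi p q w 0 - p * psi p q w 1] := by
  rw [psi_eq, toPoly_cons, val_add, val_C, val_X_mul, ← psi_eq]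
  funext i
  fin_cases i
  · simp [M, dotProduct, Fin.sum_univ_two]
  · simp [M, dotProduct, Fin.sum_univ_two]
    ring

theorem exists_word (p q : ℤ) (hpq : 1 + |p| < |q|) (n : ℕ) :
    ∀ c0 c1 : ℤ, 2 * |c0| + 3 * |c1| ≤ n → ∃ w : List (Digit q), psi p q w = ![c0, c1] := by
  have hq : q ≠ 0 := by
    rintro rfl
    have := abs_nonneg p
    simp at hpq
    linarith
  induction n using Nat.strong_induction_on with
  | _ n ih =>
    intro c0 c1 hc
    have hnil : psi p q ([] : List (Digit q)) = ![0, 0] := by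
      rw [psi_eq, toPoly_nil, ← C_0, val_C]
    by_cases h0 : c0 = 0 ∧ c1 = 0
    · exact ⟨[], by rw [h0.1, h0.2, hnil]⟩
    obtain ⟨m, a, hm, ha, hqm⟩ := trunc c0 q hq
    -- case of a single digit
    by_cases h1 : m = 0 ∧ c1 = 0
    · refine ⟨[⟨a, ha⟩], ?_⟩
      rw [psi_cons, hnil]
      funext i
      fin_cases i
      · simp [hm, h1.1]
      · simp [h1.2]
    have habs : |c1 + p * m| ≤ |c1| + |p| * |m| := by
      rw [← abs_mul]; exact abs_add_le _ _
    have hpos : 0 < |m| + |c1| := by
      rcases not_and_or.1 h1 with h | h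
      · have := abs_pos.2 h; have := abs_nonneg c1; linarith
      · have := abs_pos.2 h; have := abs_nonneg m; linarith
    have hm0 := abs_nonneg m
    have hc0 := abs_nonneg c1
    have hdec : 2 * |c1 + p * m| + 3 * |m| < 2 * |c0| + 3 * |c1| := by
      have e1 : 2 * |p| + 3 ≤ 2 * |q| - 1 := by linarith
      have e2 : (2 * |p| + 3) * |m| ≤ (2 * |q| - 1) * |m| := by gcongr
      nlinarith
    have hnn : 0 ≤ 2 * |c1 + p * m| + 3 * |m| := by positivity
    obtain ⟨w, hw⟩ := ih (2 * |c1 + p * m| + 3 * |m|).toNat (by omega) (c1 + p * m) m (by omega)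
    refine ⟨⟨a, ha⟩ :: w, ?_⟩
    rw [psi_cons, hw]
    funext i
    fin_cases i
    · simp [hm]
    · simp

instance (q : ℤ) : Finite (Digit q) := by
  have h : {a : ℤ | |a| ≤ |q| - 1}.Finite := by
    apply (Set.finite_Icc (-(|q| - 1)) (|q| - 1)).subset
    intro a ha
    exact abs_le.1 ha
  exact h.to_subtype

theorem exists_dom (p q : ℤ) (hpq : 1 + |p| < |q|) (z : Fin 2 → ℤ) :
    ∃ w ∈ Dom p q, psi p q w = z := by
  have hne : ∃ w, psi p q w = z := by
    obtain ⟨w, hw⟩ := exists_word p q hpq (2 * |z 0| + 3 * |z 1|).toNat (z 0) (z 1)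
      (Int.self_le_toNat _)
    refine ⟨w, ?_⟩
    rw [hw]
    funext i
    fin_cases i <;> rfl
  have hwf : WellFounded (List.Shortlex ((· < ·) : Digit q → Digit q → Prop)) :=
    List.Shortlex.wf wellFounded_lt
  obtain ⟨w, hw, hmin⟩ := hwf.has_min {w | psi p q w = z} hne
  refine ⟨w, ?_, hw⟩
  intro u hu heq
  have h1 : psi p q u = psi p q w := (equivalent_iff p q u w).1 heq
  exact hmin u (h1.trans hw) hu

/-! ### Convolutions -/

theorem range_filterMap {α : Type} (u : List α) :
    ∀ n, u.length ≤ n → (List.range n).filterMap (fun k => u[k]?) = u := by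
  induction u with
  | nil => intro n _; simp
  | cons a u ih =>
    intro n hn
    obtain ⟨m, rfl⟩ : ∃ m, n = m + 1 := ⟨n - 1, by simp at hn; omega⟩
    rw [List.range_succ_eq_map, List.filterMap_cons]
    simp only [List.getElem?_cons_zero, List.filterMap_map]
    congr 1
    have : ((fun k => (a :: u)[k]?) ∘ Nat.succ) = fun k => u[k]? := by
      funext k; simp
    rw [this]
    exact ih m (by simpa using hn)

theorem conv_fst {α : Type} (u v : List α) : (conv u v).filterMap Prod.fst = u := by
  unfold conv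
  rw [List.filterMap_map]
  exact range_filterMap u _ (le_max_left _ _)

theorem conv_snd {α : Type} (u v : List α) : (conv u v).filterMap Prod.snd = v := by
  unfold conv
  rw [List.filterMap_map]
  exact range_filterMap v _ (le_max_right _ _)

theorem conv_some {α : Type} {u v : List α} {a b : List (Option α × Option α)}
    (h : conv u v = a ++ b) (hu : a.length ≤ u.length) (hv : a.length ≤ v.length) :
    ∀ l ∈ a, l.1.isSome ∧ l.2.isSome := by
  intro l hl
  obtain ⟨k, hk, rfl⟩ := List.mem_iff_getElem.1 hl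
  have h1 : (conv u v)[k]? = some a[k] := by
    rw [h, List.getElem?_append_left hk, List.getElem?_eq_getElem hk]
  have h2 : (conv u v)[k]? = some (u[k]?, v[k]?) := by
    unfold conv
    rw [List.getElem?_map, List.getElem?_range (by omega)]
    rfl
  rw [h2, Option.some_inj] at h1
  rw [← h1]
  constructor
  · show (u[k]?).isSome
    rw [List.getElem?_eq_getElem (by omega)]; rfl
  · show (v[k]?).isSome
    rw [List.getElem?_eq_getElem (by omega)]; rfl

theorem length_filterMap_some {α β : Type} (f : α → Option β) (l : List α)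
    (h : ∀ x ∈ l, (f x).isSome) : (l.filterMap f).length = l.length := by
  induction l with
  | nil => rfl
  | cons a l ih =>
    obtain ⟨b, hb⟩ := Option.isSome_iff_exists.1 (h a (by simp))
    rw [List.filterMap_cons, hb]
    simp [ih fun x hx => h x (List.mem_cons_of_mem _ hx)]

theorem filterMap_flatten_replicate {α β : Type} (f : α → Option β) (l : List α) (k : ℕ) :
    ((List.replicate k l).flatten).filterMap f = (List.replicate k (l.filterMap f)).flatten := by
  induction k with
  | zero => rfl
  | succ k ih =>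
    rw [List.replicate_succ, List.flatten_cons, List.filterMap_append, ih, List.replicate_succ,
      List.flatten_cons]

/-! ### Pumping -/

/-- `a b^k c` -/
def pump {α : Type} (a b c : List α) (k : ℕ) : List α := a ++ (List.replicate k b).flatten ++ c

open Q28.Anosov in
theorem psi_pump (p q : ℤ) (a b c : List (Digit q)) (k : ℕ) :
    psi p q (pump a b c (k + 2)) - psi p q (pump a b c (k + 1)) =
      (M p q ^ b.length).mulVec (psi p q (pump a b c (k + 1)) - psi p q (pump a b c k)) := by
  have h1 : ∀ k, psi p q (pump a b c k) = psi p q a +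
      (M p q ^ a.length).mulVec (psi p q ((List.replicate k b).flatten ++ c)) := by
    intro k
    rw [pump, List.append_assoc, psi_append]
  have h2 : ∀ k, psi p q ((List.replicate (k + 1) b).flatten ++ c) = psi p q b +
      (M p q ^ b.length).mulVec (psi p q ((List.replicate k b).flatten ++ c)) := by
    intro k
    rw [List.replicate_succ, List.flatten_cons, List.append_assoc, psi_append]
  rw [h1, h1, h1, add_sub_add_left_eq_sub, add_sub_add_left_eq_sub, ← Matrix.mulVec_sub,
    ← Matrix.mulVec_sub, h2 (k + 1)]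
  conv_lhs => rw [h2 k]
  rw [add_sub_add_left_eq_sub, ← Matrix.mulVec_sub, Matrix.mulVec_mulVec, Matrix.mulVec_mulVec,
    ← pow_add, ← pow_add, add_comm a.length b.length, h2 k]

open Q28.Anosov in
/-- the necessary condition -/
theorem criterion (p q : ℤ) (hpq : 1 + |p| < |q|) (hcop : IsCoprime p q)
    (A : Matrix (Fin 2) (Fin 2) ℤ) (hdet : A.det = 1) (htr : 2 < |A.trace|)
    (hrec : MatrixRecognizable p q A) :
    A 0 1 = q * A 1 0 ∧ A 0 0 - A 1 1 = p * A 1 0 := by
  have hq1 : 1 < |q| := by have := abs_nonneg p; linarith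
  have hq0 : q ≠ 0 := by rintro rfl; simp at hq1
  obtain ⟨σ, _, D, hD⟩ := hrec
  -- representatives
  choose rep hrepD hrep using exists_dom p q hpq
  have hinj : Function.Injective rep := fun x y h => by rw [← hrep x, h, hrep]
  have hAinj : Function.Injective fun z : Fin 2 → ℤ => A.mulVec z := by
    have hu : IsUnit A := (Matrix.isUnit_iff_isUnit_det A).2 (by rw [hdet]; exact isUnit_one)
    exact Matrix.mulVec_injective_of_isUnit hu
  have hfin : {w : List (Digit q) | w.length < Fintype.card σ}.Finite := List.finite_length_lt _ _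
  have hB1 : {z | (rep z).length < Fintype.card σ}.Finite :=
    hfin.preimage hinj.injOn
  have hB2 : {z | (rep (A.mulVec z)).length < Fintype.card σ}.Finite :=
    hfin.preimage (f := fun z => rep (A.mulVec z)) (hinj.comp hAinj).injOn
  obtain ⟨z, hz⟩ := (hB1.union hB2).exists_notMem
  have hz1 : Fintype.card σ ≤ (rep z).length := by
    by_contra h; exact hz (Or.inl (not_le.1 h))
  have hz2 : Fintype.card σ ≤ (rep (A.mulVec z)).length := by
    by_contra h; exact hz (Or.inr (not_le.1 h))
  have hx : conv (rep z) (rep (A.mulVec z)) ∈ D.accepts := by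
    rw [hD]
    exact ⟨_, _, ⟨hrepD _, hrepD _, by rw [hrep, hrep]⟩, rfl⟩
  have hlen : Fintype.card σ ≤ (conv (rep z) (rep (A.mulVec z))).length := by
    unfold conv
    rw [List.length_map, List.length_range]
    exact hz1.trans (le_max_left _ _)
  obtain ⟨a, b, c, habc, hab, hb, hpump⟩ := D.pumping_lemma hx hlen
  have hsome := conv_some (a := a ++ b) (b := c) habc
    (by rw [List.length_append]; omega) (by rw [List.length_append]; omega)
  have hb1 : (b.filterMap Prod.fst).length = b.length :=
    length_filterMap_some _ _ fun x hx => (hsome x (List.mem_append_right _ hx)).1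
  have hb2 : (b.filterMap Prod.snd).length = b.length :=
    length_filterMap_some _ _ fun x hx => (hsome x (List.mem_append_right _ hx)).2
  have hbpos : 1 ≤ b.length := List.length_pos_iff.2 hb
  -- all pumped words are accepted
  have hk : ∀ k, pump (a.filterMap Prod.fst) (b.filterMap Prod.fst) (c.filterMap Prod.fst) k ∈
        Dom p q ∧
      psi p q (pump (a.filterMap Prod.snd) (b.filterMap Prod.snd) (c.filterMap Prod.snd) k) =
      A.mulVec (psi p q
        (pump (a.filterMap Prod.fst) (b.filterMap Prod.fst) (c.filterMap Prod.fst) k)) := by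
    intro k
    have h1 : a ++ (List.replicate k b).flatten ++ c ∈ D.accepts := by
      apply hpump
      refine Language.mem_mul.2 ⟨a ++ (List.replicate k b).flatten, ?_, c, rfl, rfl⟩
      refine Language.mem_mul.2 ⟨a, rfl, _, ?_, rfl⟩
      rw [Language.mem_kstar]
      exact ⟨List.replicate k b, rfl, fun y hy => (List.mem_replicate.1 hy).2⟩
    rw [hD] at h1
    obtain ⟨u, v, ⟨hu, hv, huv⟩, hconv⟩ := h1
    have hu' : u = pump (a.filterMap Prod.fst) (b.filterMap Prod.fst) (c.filterMap Prod.fst) k := by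
      rw [← conv_fst u v, hconv, pump, List.filterMap_append, List.filterMap_append,
        filterMap_flatten_replicate]
    have hv' : v = pump (a.filterMap Prod.snd) (b.filterMap Prod.snd) (c.filterMap Prod.snd) k := by
      rw [← conv_snd u v, hconv, pump, List.filterMap_append, List.filterMap_append,
        filterMap_flatten_replicate]
    rw [← hu', ← hv']
    exact ⟨hu, huv⟩
  obtain ⟨U, hU⟩ : ∃ U, U = fun k => psi p q
    (pump (a.filterMap Prod.fst) (b.filterMap Prod.fst) (c.filterMap Prod.fst) k) := ⟨_, rfl⟩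
  obtain ⟨V, hV⟩ : ∃ V, V = fun k => psi p q
    (pump (a.filterMap Prod.snd) (b.filterMap Prod.snd) (c.filterMap Prod.snd) k) := ⟨_, rfl⟩
  have hUrec : ∀ k, U (k + 2) - U (k + 1) = (M p q ^ b.length).mulVec (U (k + 1) - U k) := by
    intro k
    rw [hU]
    simp only
    rw [psi_pump, hb1]
  have hVrec : ∀ k, V (k + 2) - V (k + 1) = (M p q ^ b.length).mulVec (V (k + 1) - V k) := by
    intro k
    rw [hV]
    simp only
    rw [psi_pump, hb2]
  have hAUV : ∀ k, A.mulVec (U k) = V k := by
    intro k
    rw [hU, hV]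
    exact (hk k).2.symm
  have hne : U 1 - U 0 ≠ 0 := by
    intro h0
    have h1 : U 0 = U 1 := (sub_eq_zero.1 h0).symm
    rw [hU] at h1
    have h2 := (equivalent_iff p q _ _).2 h1
    refine (hk 1).1 _ (List.Shortlex.of_length_lt ?_) h2
    simp only [pump, List.replicate_zero, List.flatten_nil, List.append_nil, List.length_append,
      List.replicate_one, List.flatten_singleton, hb1]
    omega
  have hdiff : ∀ k, A.mulVec (U (k + 1) - U k) = V (k + 1) - V k := by
    intro k
    rw [Matrix.mulVec_sub, hAUV, hAUV]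
  refine scal A (M p q ^ b.length) p q hq0 (U 1 - U 0) hne (pow_entries p q _).1
    (pow_entries p q _).2 (pow_ne p q hq1 hcop _ hbpos) ?_ ?_ ?_
  · rw [← hUrec 0, hdiff 0, hdiff 1, hVrec 0]
  · rw [← hUrec 0, ← hUrec 1, hdiff 1, hdiff 2, hVrec 1]
  · exact no_eigenvector A hdet htr

/-- The matrix with rows `(2, 1)` and `(1, 1)`. -/
def catMap : Matrix.SpecialLinearGroup (Fin 2) ℤ :=
  ⟨!![2, 1; 1, 1], by rw [Matrix.det_fin_two_of]; norm_num⟩

/-- **Main theorem.** The matrix with rows `(2, 1)` and `(1, 1)` is Anosov and is FA-recognizable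
with respect to no `ψ_{p,q}`, `(p, q) ∈ 𝒫`. More generally, if an Anosov matrix `A` with rows
`(a, b)` and `(c, d)` is FA-recognizable with respect to `ψ_{p,q}`, `(p, q) ∈ 𝒫`, then `b = q c` and
`a - d = p c`. -/
theorem result :
    (Anosov catMap ∧ ∀ pq ∈ P, ¬ MatrixRecognizable pq.1 pq.2 catMap) ∧
    ∀ A : Matrix.SpecialLinearGroup (Fin 2) ℤ, Anosov A → ∀ pq ∈ P,
      MatrixRecognizable pq.1 pq.2 A → A 0 1 = pq.2 * A 1 0 ∧ A 0 0 - A 1 1 = pq.1 * A 1 0 := by
  have main : ∀ A : Matrix.SpecialLinearGroup (Fin 2) ℤ, Anosov A → ∀ pq ∈ P,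
      MatrixRecognizable pq.1 pq.2 A → A 0 1 = pq.2 * A 1 0 ∧ A 0 0 - A 1 1 = pq.1 * A 1 0 :=
    fun A hA pq hpq hrec => criterion pq.1 pq.2 hpq.1 hpq.2.1 A A.2 hA hrec
  have hcat : Anosov catMap := by
    unfold Anosov
    rw [Matrix.trace_fin_two]
    show (2 : ℤ) < |2 + 1|
    norm_num
  refine ⟨⟨hcat, fun pq hpq hrec => ?_⟩, main⟩
  have h1 := (main catMap hcat pq hpq hrec).1
  have h2 : (1 : ℤ) = pq.2 * 1 := h1
  have h3 := hpq.1
  have h4 := abs_nonneg pq.1
  have h5 : pq.2 = 1 := by linarith
  rw [h5] at h3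
  norm_num at h3
  linarith

end Pool.Agent.Results.MP_334179_al.CatMapNotRecognizable
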